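import Mathlib

set_option autoImplicit false

/-!
# μ-Sondow numbers
-/

namespace Q239.Sondow

/-- `n` is a `μ`-Sondow number. -/
def IsSondow (μ : ℤ) (n : ℕ) : Prop :=
  0 < n ∧ ∀ p s : ℕ, p.Prime → p ∣ n → p ^ s ∣ n → ¬ p ^ (s + 1) ∣ n →
    ((p ^ s : ℕ) : ℤ) ∣ ((n / p : ℕ) : ℤ) + μ

lemma sondow_prime {μ : ℤ} {p : ℕ} (hp : p.Prime) (h : (p : ℤ) ∣ μ + 1) : IsSondow μ p := by
  refine ⟨hp.pos, ?_⟩
  intro q s hq hqp hs hs1
  have hqp' : q = p := (Nat.prime_dvd_prime_iff_eq hq hp).1 hqp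
  subst hqp'
  have h1 : s ≤ 1 := by
    by_contra hc
    push Not at hc
    have h2 : q ^ 2 ∣ q := (pow_dvd_pow q hc).trans hs
    have h3 := Nat.le_of_dvd hp.pos h2
    have h4 := hp.two_le
    nlinarith
  have h5 : q / q = 1 := Nat.div_self hp.pos
  rw [h5]
  have h6 : (q : ℤ) ∣ ((1 : ℕ) : ℤ) + μ := by push_cast; rwa [add_comm]
  refine dvd_trans ?_ h6
  have : q ^ s ∣ q ^ 1 := pow_dvd_pow q h1
  rw [pow_one] at this
  exact_mod_cast this

/-- If `μ > 0` is not a power of two then `2 ^ (v + 1)`, `v = v_2(μ)`, works. -/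
lemma sondow_two {v m : ℕ} (hm : Odd m) :
    IsSondow (((2 ^ v * m : ℕ) : ℤ)) (2 ^ (v + 1)) := by
  refine ⟨by positivity, ?_⟩
  intro q s hq hqp hs hs1
  have hq2 : q = 2 := (Nat.prime_dvd_prime_iff_eq hq Nat.prime_two).1 (hq.dvd_of_dvd_pow hqp)
  subst hq2
  have h1 : s ≤ v + 1 := (Nat.pow_dvd_pow_iff_le_right (by norm_num)).1 hs
  have h2 : 2 ^ (v + 1) / 2 = 2 ^ v := by
    rw [pow_succ]; simp
  rw [h2]
  have h3 : 2 ^ s ∣ 2 ^ v + 2 ^ v * m := by
    refine (pow_dvd_pow 2 h1).trans ?_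
    obtain ⟨r, hr⟩ := hm
    refine ⟨r + 1, ?_⟩
    rw [hr, pow_succ]; ring
  exact_mod_cast h3

/-- Squarefree case. -/
lemma sondow_list {μ : ℕ} (ps : List ℕ) (hnd : ps.Nodup) (hp : ∀ p ∈ ps, p.Prime)
    (h : ∀ p ∈ ps, p ∣ ps.prod / p + μ) : IsSondow (μ : ℤ) ps.prod := by
  have hpos : 0 < ps.prod := List.prod_pos fun p hp' => (hp p hp').pos
  refine ⟨hpos, ?_⟩
  intro q s hq hqn hs hs1
  have hperm := Nat.primeFactorsList_unique (n := ps.prod) rfl hp
  have hsq : Squarefree ps.prod := by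
    rw [Nat.squarefree_iff_nodup_primeFactorsList hpos.ne']
    exact hperm.nodup_iff.1 hnd
  have hmem : q ∈ ps := by
    rw [hperm.mem_iff]
    exact (Nat.mem_primeFactorsList hpos.ne').2 ⟨hq, hqn⟩
  have h1 : s ≤ 1 := by
    by_contra hc
    push Not at hc
    have h2 : q * q ∣ ps.prod := by
      rw [← pow_two]
      exact (pow_dvd_pow q hc).trans hs
    have := hsq q h2
    rw [Nat.isUnit_iff] at this
    exact hq.one_lt.ne' this
  have h3 : q ^ s ∣ ps.prod / q + μ := by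
    have : q ^ s ∣ q ^ 1 := pow_dvd_pow q h1
    rw [pow_one] at this
    exact this.trans (h q hmem)
  exact_mod_cast h3

/-- `2 ^ (2 ^ k) mod n` by repeated squaring. -/
def sq (n : ℕ) : ℕ → ℕ
  | 0 => 2 % n
  | k + 1 => (sq n k) ^ 2 % n

lemma sq_eq (n k : ℕ) : sq n k = 2 ^ (2 ^ k) % n := by
  induction k with
  | zero => simp [sq]
  | succ k ih =>
    rw [sq, ih, ← Nat.pow_mod, ← pow_mul, ← pow_succ]

/-- Trial division. -/
def trial (p : ℕ) : ℕ → ℕ → Bool
  | 0, _ => false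
  | f + 1, d => if p < d * d then true else if p % d = 0 then false else trial p f (d + 1)

lemma trial_spec (p : ℕ) : ∀ f d : ℕ, trial p f d = true → ∀ e, d ≤ e → e * e ≤ p → ¬ e ∣ p := by
  intro f
  induction f with
  | zero => intro d h; simp [trial] at h
  | succ f ih =>
    intro d h e hde hep
    rw [trial] at h
    split_ifs at h with h1 h2
    · nlinarith
    · rcases Nat.eq_or_lt_of_le hde with h3 | h3
      · subst h3
        exact fun h4 => h2 (Nat.mod_eq_zero_of_dvd h4)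
      · exact ih (d + 1) h e h3 hep

lemma prime_of_trial {p f : ℕ} (hp : 2 ≤ p) (h : trial p f 2 = true) : p.Prime := by
  rw [Nat.prime_def_le_sqrt]
  refine ⟨hp, ?_⟩
  intro m hm hms
  exact trial_spec p f 2 h m hm (Nat.le_sqrt.1 hms)

/-- Check of an entry of the tables. -/
def chkP (ps : List ℕ) : Bool :=
  decide (ps.Nodup) && ps.all (fun p => decide (2 ≤ p) && trial p 6000 2) && decide (2 ≤ ps.prod) &&
    decide (ps.prod ≤ 2 ^ 64)

def chkK (k : ℕ) (ps : List ℕ) : Bool :=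
  ps.all (fun p => decide ((ps.prod / p + sq p k) % p = 0))

def chkC (m c : ℕ) (ps : List ℕ) : Bool :=
  ps.all (fun p => decide (sq p (c + m) = sq p c))

lemma chkP_spec {ps : List ℕ} (h : chkP ps = true) :
    ps.Nodup ∧ (∀ p ∈ ps, p.Prime) ∧ 2 ≤ ps.prod ∧ ps.prod ≤ 2 ^ 64 := by
  simp only [chkP, Bool.and_eq_true, decide_eq_true_eq, List.all_eq_true] at h
  exact ⟨h.1.1.1, fun p hp => prime_of_trial (h.1.1.2 p hp).1 (h.1.1.2 p hp).2, h.1.2, h.2⟩

lemma chkK_spec {k : ℕ} {ps : List ℕ} (hP : chkP ps = true) (h : chkK k ps = true) :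
    IsSondow ((2 ^ (2 ^ k) : ℕ) : ℤ) ps.prod := by
  obtain ⟨h1, h2, h3, h4⟩ := chkP_spec hP
  refine sondow_list ps h1 h2 ?_
  intro p hp
  simp only [chkK, List.all_eq_true, decide_eq_true_eq] at h
  have h5 := h p hp
  rw [sq_eq, Nat.add_mod_mod] at h5
  exact Nat.dvd_of_mod_eq_zero h5

lemma sq_period {p m c : ℕ} (h : sq p (c + m) = sq p c) (j : ℕ) : sq p (c + m * j) = sq p c := by
  have key : ∀ i a b : ℕ, sq p a = sq p b → sq p (a + i) = sq p (b + i) := by
    intro i a b hab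
    induction i with
    | zero => exact hab
    | succ i ih => rw [← add_assoc, ← add_assoc, sq, sq, ih]
  induction j with
  | zero => simp
  | succ j ih =>
    have h1 := key (m * j) _ _ h
    have h2 : c + m * (j + 1) = c + m + m * j := by ring
    rw [h2, h1, ih]

lemma chkC_spec {m c k : ℕ} {ps : List ℕ} (hP : chkP ps = true) (hK : chkK c ps = true)
    (hC : chkC m c ps = true) (hck : c ≤ k) (hmod : k % m = c % m) :
    IsSondow ((2 ^ (2 ^ k) : ℕ) : ℤ) ps.prod := by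
  refine chkK_spec hP ?_
  simp only [chkK, chkC, List.all_eq_true, decide_eq_true_eq] at hK hC ⊢
  intro p hp
  obtain ⟨j, hj⟩ : ∃ j, k = c + m * j := by
    have h1 : m ∣ k - c := (Nat.modEq_iff_dvd' hck).1 hmod.symm
    obtain ⟨j, hj⟩ := h1
    exact ⟨j, by omega⟩
  rw [hj, sq_period (hC p hp) j]
  exact hK p hp

def classTab : List (ℕ × ℕ × ℕ × List ℕ) :=
  [(3, 0, 42, [5, 29]),
   (10, 3, 43, [97, 353]),
   (12, 4, 40, [3, 11, 19]),
   (12, 9, 45, [3, 7, 71]),
   (20, 4, 44, [13, 101]),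
   (24, 5, 53, [3, 11, 73, 103]),
   (24, 10, 58, [3, 5, 11, 19, 137]),
   (36, 1, 73, [5, 7, 19, 223]),
   (36, 14, 50, [5, 99409]),
   (36, 18, 54, [3, 31, 191]),
   (60, 12, 72, [3, 19, 83]),
   (60, 23, 83, [3, 67, 71]),
   (60, 29, 89, [7, 11, 23, 199]),
   (60, 34, 94, [53, 5953]),
   (60, 40, 40, [3, 7, 79, 46811]),
   (60, 42, 42, [3, 5, 23, 71]),
   (60, 43, 43, [5, 29, 401]),
   (90, 40, 40, [17, 46817]),
   (120, 1, 121, [613, 617]),
   (180, 61, 61, [337, 9769]),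
   (180, 70, 70, [821, 47881]),
   (360, 56, 56, [293, 24889]),
   (360, 161, 161, [3, 11, 392299]),
   (360, 320, 320, [18089, 30493]),
   (360, 349, 349, [3, 199, 647])]

def kTab : List (ℕ × List ℕ) :=
  [(3, [5, 29]),
   (4, [3, 11, 19]),
   (5, [3, 11, 73, 103]),
   (6, [5, 29]),
   (7, [3, 31, 18959]),
   (8, [17, 2549]),
   (9, [5, 29]),
   (10, [3, 7, 2027]),
   (11, [3, 23, 47, 16091]),
   (12, [5, 29]),
   (13, [97, 353]),
   (14, [5, 99409]),
   (15, [5, 29]),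
   (16, [3, 11, 19]),
   (17, [349, 613]),
   (18, [5, 29]),
   (19, [3, 79, 1187]),
   (20, [3, 7, 13, 479]),
   (21, [5, 29]),
   (22, [5, 6869]),
   (23, [3, 67, 71]),
   (24, [5, 29]),
   (26, [7, 79, 167]),
   (27, [5, 29]),
   (28, [3, 11, 19]),
   (29, [3, 11, 73, 103]),
   (30, [5, 29]),
   (31, [3, 7, 71387]),
   (32, [17, 12250981]),
   (33, [5, 29]),
   (34, [5, 709]),
   (35, [3, 227, 859]),
   (36, [5, 29]),
   (37, [5, 7, 19, 223]),
   (38, [13, 2909]),
   (39, [5, 29]),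
   (40, [3, 11, 19]),
   (41, [2269, 6421]),
   (42, [5, 29]),
   (43, [97, 353]),
   (44, [13, 101]),
   (45, [5, 29]),
   (46, [5, 60589]),
   (47, [5, 197, 337]),
   (48, [5, 29]),
   (49, [3, 5, 71, 563]),
   (50, [13, 12373]),
   (51, [5, 29]),
   (52, [3, 11, 19]),
   (53, [97, 353]),
   (54, [5, 29]),
   (55, [3, 11, 320539]),
   (56, [31, 47, 2879]),
   (57, [5, 29]),
   (58, [3, 5, 11, 19, 137]),
   (59, [5, 47309]),
   (60, [5, 29]),
   (61, [337, 9769]),
   (62, [3, 5, 1583, 48731]),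
   (63, [5, 29]),
   (64, [3, 11, 19]),
   (65, [3, 5, 31, 163]),
   (66, [5, 29]),
   (67, [13, 29, 9461]),
   (68, [14177, 18481]),
   (69, [5, 29]),
   (70, [3, 5, 19, 2647]),
   (71, [3, 37, 167, 1759]),
   (72, [5, 29]),
   (73, [97, 353]),
   (74, [5, 14549]),
   (75, [5, 29]),
   (76, [3, 11, 19]),
   (77, [3, 11, 73, 103]),
   (78, [5, 29]),
   (79, [13, 71777]),
   (80, [5, 17, 4957]),
   (81, [5, 29]),
   (82, [3, 5, 11, 19, 137]),
   (83, [3, 67, 71]),
   (84, [5, 29]),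
   (85, [389, 3769]),
   (86, [5, 99409]),
   (87, [5, 29]),
   (88, [3, 11, 19]),
   (89, [5, 197, 337]),
   (90, [5, 29]),
   (91, [389, 433, 1637]),
   (92, [5, 709]),
   (93, [5, 29]),
   (94, [3, 7, 37, 359]),
   (95, [3677, 18041]),
   (96, [5, 29]),
   (97, [3, 53, 311, 162359]),
   (98, [5101, 5641]),
   (99, [5, 29]),
   (100, [3, 11, 19]),
   (101, [3, 11, 73, 103]),
   (102, [5, 29]),
   (103, [97, 353]),
   (104, [13, 101]),
   (105, [5, 29]),
   (106, [3, 5, 11, 19, 137]),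
   (107, [41, 134921]),
   (108, [5, 29]),
   (109, [5, 7, 19, 223]),
   (110, [3, 7, 10343]),
   (111, [5, 29]),
   (112, [3, 11, 19]),
   (113, [97, 353]),
   (114, [5, 29]),
   (115, [3, 23, 61, 21379]),
   (116, [5, 7, 31, 34487]),
   (117, [5, 29]),
   (118, [11, 17, 23, 31, 188017]),
   (119, [5, 324889]),
   (120, [5, 29]),
   (121, [97, 2293]),
   (122, [5, 99409]),
   (123, [5, 29]),
   (124, [3, 11, 19]),
   (125, [3, 11, 73, 103]),
   (126, [5, 29]),
   (127, [89, 1741]),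
   (128, [7, 31, 5779]),
   (129, [5, 29]),
   (130, [5, 1229]),
   (131, [5, 197, 337]),
   (132, [5, 29]),
   (133, [97, 353]),
   (134, [3, 7, 2449619]),
   (135, [5, 29]),
   (136, [3, 11, 19]),
   (137, [3, 67, 29339]),
   (138, [5, 29]),
   (139, [3, 7, 13, 839]),
   (140, [3, 19, 127, 89303]),
   (141, [5, 29]),
   (142, [13, 52673]),
   (143, [3, 67, 71]),
   (144, [5, 29]),
   (145, [5, 7, 19, 223]),
   (146, [389, 12821]),
   (147, [5, 29]),
   (148, [3, 11, 19]),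
   (149, [3, 11, 73, 103]),
   (150, [5, 29]),
   (151, [3, 683, 2503]),
   (152, [3, 13, 17, 19, 787]),
   (153, [5, 29]),
   (154, [53, 5953]),
   (155, [41, 1289, 85817]),
   (156, [5, 29]),
   (157, [3, 7, 6689, 2064379]),
   (158, [5, 99409]),
   (159, [5, 29]),
   (160, [3, 11, 19]),
   (161, [353, 1933]),
   (162, [5, 29]),
   (163, [97, 353]),
   (164, [13, 101]),
   (165, [5, 29]),
   (166, [5, 10289]),
   (167, [157, 1360589]),
   (168, [5, 29]),
   (169, [3, 11, 167, 1103]),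
   (170, [13, 1181, 2621]),
   (171, [5, 29]),
   (172, [3, 11, 19]),
   (173, [97, 353]),
   (174, [5, 29]),
   (175, [31, 47, 2371]),
   (176, [17, 2549]),
   (177, [5, 29]),
   (178, [3, 5, 11, 19, 137]),
   (179, [3, 13, 103, 107]),
   (180, [5, 29]),
   (181, [5, 7, 19, 223]),
   (182, [11, 47, 113, 151]),
   (183, [5, 29]),
   (184, [3, 11, 19]),
   (185, [349, 613]),
   (186, [5, 29]),
   (187, [3, 11, 11923]),
   (188, [701, 1260881]),
   (189, [5, 29]),
   (190, [5, 27059689]),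
   (191, [3, 13, 17, 227, 5351]),
   (192, [5, 29]),
   (193, [97, 353]),
   (194, [3, 7, 2027]),
   (195, [5, 29]),
   (196, [3, 11, 19]),
   (197, [3, 11, 73, 103]),
   (198, [5, 29]),
   (199, [101, 4049]),
   (200, [3, 11, 13, 977, 1536467])]

/-- All entries of the table of classes are correct. -/
lemma classTab_ok : ∀ e ∈ classTab, chkP e.2.2.2 = true ∧ chkK e.2.2.1 e.2.2.2 = true ∧
    chkC e.1 e.2.2.1 e.2.2.2 = true ∧ e.2.2.1 % e.1 = e.2.1 ∧ e.2.2.1 ≤ 200 + e.1 ∧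
    (∀ k < 200 + e.1, 201 ≤ k → k % e.1 = e.2.1 → e.2.2.1 ≤ k) ∧ 0 < e.1 := by
  decide +kernel

lemma kTab_ok : ∀ e ∈ kTab, chkP e.2 = true ∧ chkK e.1 e.2 = true ∧
    (e.1 < 6 → e.2.prod ≤ 2 ^ (2 ^ e.1)) := by
  decide +kernel

lemma kTab_all : ∀ k < 201, 3 ≤ k → k ≠ 25 → ∃ e ∈ kTab, e.1 = k := by
  decide +kernel

/-- The residue classes `c mod m` (as pairs `(m, c)`) for which the assertion is proved. -/
def classes : List (ℕ × ℕ) :=
  [(3, 0), (10, 3), (12, 4), (12, 9), (20, 4), (24, 5), (24, 10), (36, 1), (36, 14), (36, 18),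
   (60, 12), (60, 23), (60, 29), (60, 34), (60, 40), (60, 42), (60, 43), (90, 40), (120, 1),
   (180, 61), (180, 70), (360, 56), (360, 161), (360, 320), (360, 349)]

/-- `k` lies in one of the 25 residue classes. -/
def Covered (k : ℕ) : Prop := ∃ e ∈ classes, k % e.1 = e.2

lemma classes_eq : classes = classTab.map (fun e => (e.1, e.2.1)) := by decide +kernel

lemma covered_count : ((Finset.range 360).filter fun k => ∃ e ∈ classes, k % e.1 = e.2).card = 240 := by
  decide +kernel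

lemma covered_periodic (k : ℕ) : Covered (k + 360) ↔ Covered k := by
  have h : ∀ e ∈ classes, e.1 ∣ 360 := by decide +kernel
  unfold Covered
  constructor
  · rintro ⟨e, he, hk⟩
    refine ⟨e, he, ?_⟩
    obtain ⟨t, ht⟩ := h e he
    rw [ht, Nat.add_mul_mod_self_left] at hk
    exact hk
  · rintro ⟨e, he, hk⟩
    refine ⟨e, he, ?_⟩
    obtain ⟨t, ht⟩ := h e he
    rw [ht, Nat.add_mul_mod_self_left]
    exact hk

lemma sondow_covered {k : ℕ} (hk : 201 ≤ k) (hc : Covered k) :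
    ∃ n : ℕ, 2 ≤ n ∧ n ≤ 2 ^ (2 ^ k) ∧ IsSondow ((2 ^ (2 ^ k) : ℕ) : ℤ) n := by
  obtain ⟨e, he, hek⟩ := hc
  rw [classes_eq, List.mem_map] at he
  obtain ⟨e', he', rfl⟩ := he
  obtain ⟨h1, h2, h3, h4, h5, h6, h7⟩ := classTab_ok e' he'
  obtain ⟨-, -, h8, h9⟩ := chkP_spec h1
  have hck : e'.2.2.1 ≤ k := by
    rcases Nat.lt_or_ge k (200 + e'.1) with h | h
    · exact h6 k h hk hek
    · exact h5.trans h
  refine ⟨e'.2.2.2.prod, h8, h9.trans ?_, chkC_spec h1 h2 h3 hck (hek.trans h4.symm)⟩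
  apply Nat.pow_le_pow_right (by norm_num)
  calc 64 = 2 ^ 6 := by norm_num
    _ ≤ 2 ^ k := Nat.pow_le_pow_right (by norm_num) (by omega)

lemma f25 {k : ℕ} (hk : k = 25) : ¬ (2 ^ (2 ^ k) + 1).Prime := by
  have h1 : sq 25991531462657 25 = 25991531462656 := by decide +kernel
  have h2 : 25991531462657 ∣ 2 ^ (2 ^ k) + 1 := by
    apply Nat.dvd_of_mod_eq_zero
    rw [Nat.add_mod, ← sq_eq, hk, h1]
  have h4 : 2 ^ 64 ≤ 2 ^ (2 ^ k) := by
    apply Nat.pow_le_pow_right (by norm_num)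
    calc 64 = 2 ^ 6 := by norm_num
      _ ≤ 2 ^ k := Nat.pow_le_pow_right (by norm_num) (by omega)
  generalize 2 ^ (2 ^ k) = X at h2 h4 ⊢
  intro h
  rcases (Nat.dvd_prime h).1 h2 with h3 | h3
  · norm_num at h3
  · have h5 : (25991531462657 : ℕ) < 2 ^ 64 := by norm_num
    omega

lemma sondow_small {k : ℕ} (hk3 : 3 ≤ k) (hk : k ≤ 200) (hp : (2 ^ (2 ^ k) + 1).Prime) :
    ∃ n : ℕ, 2 ≤ n ∧ n ≤ 2 ^ (2 ^ k) ∧ IsSondow ((2 ^ (2 ^ k) : ℕ) : ℤ) n := by
  by_cases h25 : k = 25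
  · exact absurd hp (f25 h25)
  · obtain ⟨e, he, hek⟩ := kTab_all k (by omega) hk3 h25
    obtain ⟨h1, h2, h3⟩ := kTab_ok e he
    obtain ⟨-, -, h8, h9⟩ := chkP_spec h1
    refine ⟨e.2.prod, h8, ?_, ?_⟩
    · rcases Nat.lt_or_ge k 6 with h | h
      · rw [← hek]; exact h3 (by omega)
      · refine h9.trans ?_
        apply Nat.pow_le_pow_right (by norm_num)
        calc 64 = 2 ^ 6 := by norm_num
          _ ≤ 2 ^ k := Nat.pow_le_pow_right (by norm_num) h
    · rw [← hek]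
      exact chkK_spec h1 h2

/-- The assertion holds unless `μ = 2 ^ (2 ^ k)` with `k > 200`, `μ + 1` prime, `k` not covered. -/
theorem main (μ : ℤ) (h0 : μ ∉ ({0, 1, -1, 2, -2, 4, 16} : Set ℤ))
    (hμ : ∀ k : ℕ, 201 ≤ k → ¬ Covered k → (2 ^ (2 ^ k) + 1).Prime → μ ≠ ((2 ^ (2 ^ k) : ℕ) : ℤ)) :
    ∃ n : ℕ, 2 ≤ n ∧ (n : ℤ) ≤ |μ| ∧ IsSondow μ n := by
  simp only [Set.mem_insert_iff, Set.mem_singleton_iff, not_or] at h0
  obtain ⟨h00, h01, h0m1, h02, h0m2, h04, h016⟩ := h0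
  rcases lt_or_ge μ 0 with hneg | hpos
  · -- `μ ≤ -3`
    have h3 : μ ≤ -3 := by omega
    set p := (μ + 1).natAbs.minFac with hp
    have h1 : (μ + 1).natAbs ≠ 1 := by omega
    have hpp : p.Prime := Nat.minFac_prime h1
    have hdvd : p ∣ (μ + 1).natAbs := Nat.minFac_dvd _
    refine ⟨p, hpp.two_le, ?_, sondow_prime hpp ?_⟩
    · have := Nat.le_of_dvd (by omega) hdvd
      rw [abs_of_neg hneg]
      omega
    · exact Int.natCast_dvd.2 hdvd
  · have h3 : 3 ≤ μ := by omega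
    obtain ⟨m, hm⟩ := Int.eq_ofNat_of_zero_le hpos
    subst hm
    have hm3 : 3 ≤ m := by exact_mod_cast h3
    rw [abs_of_nonneg hpos]
    obtain ⟨v, r, hr, hvr⟩ := Nat.exists_eq_two_pow_mul_odd (n := m) (by omega)
    by_cases hr1 : r = 1
    · -- power of two
      subst hr1
      rw [mul_one] at hvr
      by_cases hprime : (m + 1).Prime
      · have hv0 : v ≠ 0 := by
          rintro rfl
          simp at hvr
          omega
        rw [hvr] at hprime
        obtain ⟨k, hk⟩ := Nat.pow_of_pow_add_prime (by norm_num) hv0 hprime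
        subst hk
        subst hvr
        have hk3 : 3 ≤ k := by
          by_contra hc
          push Not at hc
          interval_cases k
          · simp at h02
          · simp at h04
          · simp at h016
        have key : ∃ n : ℕ, 2 ≤ n ∧ n ≤ 2 ^ (2 ^ k) ∧ IsSondow ((2 ^ (2 ^ k) : ℕ) : ℤ) n := by
          rcases Nat.lt_or_ge k 201 with h | h
          · exact sondow_small hk3 (by omega) hprime
          · by_cases hc : Covered k
            · exact sondow_covered h hc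
            · exact absurd rfl (hμ k h hc hprime)
        obtain ⟨n, hn2, hn, hS⟩ := key
        exact ⟨n, hn2, by exact_mod_cast hn, hS⟩
      · set p := (m + 1).minFac with hp
        have hpp : p.Prime := Nat.minFac_prime (by omega)
        have hdvd : p ∣ m + 1 := Nat.minFac_dvd _
        refine ⟨p, hpp.two_le, ?_, sondow_prime hpp ?_⟩
        · have h5 := Nat.le_of_dvd (by omega) hdvd
          have h6 : p ≠ m + 1 := by
            intro h
            rw [h] at hpp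
            exact hprime hpp
          have h7 : p ≤ m := by omega
          exact_mod_cast h7
        · exact_mod_cast hdvd
    · refine ⟨2 ^ (v + 1), ?_, ?_, ?_⟩
      · calc 2 = 2 ^ 1 := by norm_num
          _ ≤ 2 ^ (v + 1) := Nat.pow_le_pow_right (by norm_num) (by omega)
      · have hr3 : 2 ≤ r := by
          rcases hr with ⟨t, ht⟩
          omega
        have : 2 ^ (v + 1) ≤ m := by
          rw [hvr, pow_succ]
          exact Nat.mul_le_mul_left _ hr3
        exact_mod_cast this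
      · have := sondow_two (v := v) hr
        rw [← hvr] at this
        exact this

end Q239.Sondow
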